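import Pool.Agent.R157.Sph.Final3

/-!
# MP_e680c3_co: triangulations with an uncrossed great circle are sinkable

Arbitrary position: several vertices may lie on one longitude or on one great circle through the
poles, and edges may run along longitudes. The only assumption on the poles is that neither is a
vertex or lies on an edge (if the north pole is on an edge, no longitudinal morph can sink its ends,
since they lie on opposite longitudes and would have to become antipodal on the way).

The definitions (`IsSPT3`, `PolesFree`, `IsLongitudinalMorph3`, `Sinkable3`) are in
`Pool/Agent/R157/Sph/Defs3.lean`; `S2`, `arc`, `longitude` are in `Pool/Agent/R157/Sph/Defs.lean`;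
`Crosses` is in `Pool/Agent/R157/Sph/Final2.lean`.

Idea of the proof: in general position the set of reachable heights is a convex cone, cut out by one
linear inequality for each face and each vertex with respect to the first edge above or below the
vertex; the matrix of the gaps to the first edges below is an M-matrix on the side of the circle
containing the north pole, and this gives reachable heights that are negative everywhere. The
construction is bounded uniformly under small rotations about a horizontal axis, so a limit argument
covers the degenerate positions.
-/

set_option autoImplicit false

namespace Pool.Agent.Results.MP_e680c3_co.CircleSinkableAll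

open Pool.Agent.R157.Sph

/-- Every shortest-path triangulation of the sphere with neither pole on a vertex or an edge is
sinkable if some great circle is crossed by no edge. -/
theorem result (n : ℕ) (G : SimpleGraph (Fin n)) (v : Fin n → Fin 3 → ℝ) (hS : IsSPT3 G v)
    (hP : PolesFree G v)
    (hc : ∃ w : Fin 3 → ℝ, w ≠ 0 ∧ ∀ i j, G.Adj i j → ¬ Crosses w (v i) (v j)) :
    Sinkable3 G v := by
  obtain ⟨w, hw, h⟩ := hc
  exact sinkable3_of_circle hS hP w hw h

end Pool.Agent.Results.MP_e680c3_co.CircleSinkableAll
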